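import Mathlib

set_option autoImplicit false

namespace Pool.H3.TwoClass

open Finset

/-- number of primes of `P` dividing `n` -/
def om (P : Finset ℕ) (n : ℕ) : ℕ := (P.filter (fun p => p ∣ n)).card

noncomputable def S (P : Finset ℕ) : ℝ := ∑ p ∈ P, (1:ℝ)/p

/-- the multiplication table -/
def MT (R : ℕ) : Finset ℕ := ((Ioc 0 R) ×ˢ (Ioc 0 R)).image (fun x => x.1 * x.2)

lemma card_dvd (X d : ℕ) (h : d ∣ X) (hd : 0 < d) :
    (((Ioc 0 X).filter (fun n => d ∣ n)).card : ℝ) = (X:ℝ)/d := by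
  rw [Nat.Ioc_filter_dvd_card_eq_div]
  rw [Nat.cast_div h (by positivity)]

lemma om_eq (P : Finset ℕ) (n : ℕ) : (om P n : ℝ) = ∑ p ∈ P, (if p ∣ n then (1:ℝ) else 0) := by
  unfold om
  rw [Finset.card_filter]
  push_cast
  rfl

lemma sum_ind (X d : ℕ) (h : d ∣ X) (hd : 0 < d) :
    ∑ n ∈ Ioc 0 X, (if d ∣ n then (1:ℝ) else 0) = (X:ℝ)/d := by
  rw [← card_dvd X d h hd, Finset.card_filter]
  push_cast
  rfl

/-- second moment -/
lemma second (P : Finset ℕ) (hP : ∀ p ∈ P, p.Prime) (X : ℕ) (hX : (∏ p ∈ P, p) ∣ X) :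
    ∑ n ∈ Ioc 0 X, ((om P n : ℝ) - S P)^2 ≤ X * S P := by
  have hdvd : ∀ p ∈ P, p ∣ X := fun p hp => (Finset.dvd_prod_of_mem _ hp).trans hX
  have h1 : ∀ n, ((om P n : ℝ) - S P)^2 = ∑ p ∈ P, ∑ q ∈ P,
      ((if p ∣ n then (1:ℝ) else 0) - 1/p) * ((if q ∣ n then (1:ℝ) else 0) - 1/q) := by
    intro n
    rw [om_eq, S, ← Finset.sum_sub_distrib, sq, Finset.sum_mul_sum]
  simp_rw [h1]
  rw [Finset.sum_comm]
  simp_rw [Finset.sum_comm (s := Ioc 0 X)]
  have h2 : ∀ p ∈ P, ∀ q ∈ P, ∑ n ∈ Ioc 0 X,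
      ((if p ∣ n then (1:ℝ) else 0) - 1/p) * ((if q ∣ n then (1:ℝ) else 0) - 1/q) =
      if p = q then (X:ℝ)/p - X/p^2 else 0 := by
    intro p hp q hq
    have hp0 := (hP p hp).pos
    have hq0 := (hP q hq).pos
    have hp0' : (p:ℝ) ≠ 0 := by positivity
    have hq0' : (q:ℝ) ≠ 0 := by positivity
    have e1 : ∀ n, ((if p ∣ n then (1:ℝ) else 0) - 1/p) * ((if q ∣ n then (1:ℝ) else 0) - 1/q) =
        (if (p ∣ n ∧ q ∣ n) then (1:ℝ) else 0) - (1/p) * (if q ∣ n then (1:ℝ) else 0)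
          - (1/q) * (if p ∣ n then (1:ℝ) else 0) + 1/p*(1/q) := by
      intro n
      by_cases a : p ∣ n <;> by_cases b : q ∣ n <;> simp [a, b] <;> ring
    simp_rw [e1]
    rw [Finset.sum_add_distrib, Finset.sum_sub_distrib, Finset.sum_sub_distrib, ← Finset.mul_sum,
      ← Finset.mul_sum, sum_ind X q (hdvd q hq) hq0, sum_ind X p (hdvd p hp) hp0, Finset.sum_const,
      Nat.card_Ioc, nsmul_eq_mul]
    by_cases hpq : p = q
    · subst hpq
      simp only [and_self, if_true]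
      rw [sum_ind X p (hdvd p hp) hp0]
      simp only [Nat.sub_zero]
      field_simp
      ring
    · have hco : Nat.Coprime p q := (Nat.coprime_primes (hP p hp) (hP q hq)).mpr hpq
      have e2 : ∀ n, (p ∣ n ∧ q ∣ n) ↔ (p * q ∣ n) := fun n =>
        ⟨fun h => hco.mul_dvd_of_dvd_of_dvd h.1 h.2, fun h => ⟨(Dvd.intro _ rfl).trans h, (Dvd.intro_left _ rfl).trans h⟩⟩
      simp_rw [e2]
      rw [sum_ind X (p*q) (hco.mul_dvd_of_dvd_of_dvd (hdvd p hp) (hdvd q hq)) (by positivity), if_neg hpq]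
      push_cast
      simp only [Nat.sub_zero]
      field_simp
      ring
  rw [Finset.sum_congr rfl (fun p hp => Finset.sum_congr rfl (fun q hq => h2 p hp q hq))]
  rw [S, Finset.mul_sum]
  refine Finset.sum_le_sum fun p hp => ?_
  rw [Finset.sum_ite_eq P p, if_pos hp]
  have : (0:ℝ) ≤ X/p^2 := by positivity
  have e : (X:ℝ) * (1/p) = X/p := by ring
  rw [e]; linarith

/-- Chebyshev -/
lemma cheb (P : Finset ℕ) (hP : ∀ p ∈ P, p.Prime) (X : ℕ) (hX : (∏ p ∈ P, p) ∣ X) (t : ℝ) (ht : 0 < t)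
    (B : Finset ℕ) (hB : B ⊆ Ioc 0 X) (hBt : ∀ n ∈ B, t ≤ |(om P n : ℝ) - S P|) :
    (B.card : ℝ) * t^2 ≤ X * S P := by
  calc (B.card : ℝ) * t^2 = ∑ n ∈ B, t^2 := by rw [Finset.sum_const, nsmul_eq_mul]
    _ ≤ ∑ n ∈ B, ((om P n : ℝ) - S P)^2 := by
        refine Finset.sum_le_sum fun n hn => ?_
        rw [← sq_abs ((om P n : ℝ) - S P)]
        exact pow_le_pow_left₀ ht.le (hBt n hn) 2
    _ ≤ ∑ n ∈ Ioc 0 X, ((om P n : ℝ) - S P)^2 :=
        Finset.sum_le_sum_of_subset_of_nonneg hB fun _ _ _ => sq_nonneg _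
    _ ≤ _ := second P hP X hX

/-- number of common primes -/
def g (P : Finset ℕ) (x : ℕ × ℕ) : ℕ := (P.filter (fun p => p ∣ x.1 ∧ p ∣ x.2)).card

lemma S2 (P : Finset ℕ) (hP : ∀ p ∈ P, p.Prime) : ∑ p ∈ P, (1:ℝ)/(p:ℝ)^2 ≤ 1 := by
  -- bound by telescoping sum of 1/((k)(k-1))
  obtain ⟨N, hN⟩ : ∃ N, P ⊆ Finset.Ico 2 (N+2) := by
    refine ⟨P.sup id, fun p hp => ?_⟩
    rw [Finset.mem_Ico]
    have := Finset.le_sup (f := id) hp
    simp only [id] at this
    exact ⟨(hP p hp).two_le, by omega⟩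
  have h1 : ∑ p ∈ P, (1:ℝ)/(p:ℝ)^2 ≤ ∑ k ∈ Finset.Ico 2 (N+2), (1:ℝ)/(k:ℝ)^2 :=
    Finset.sum_le_sum_of_subset_of_nonneg hN fun _ _ _ => by positivity
  have h2 : ∀ N : ℕ, ∑ k ∈ Finset.Ico 2 (N+2), (1:ℝ)/(k:ℝ)^2 ≤ 1 - 1/((N:ℝ)+1) := by
    intro N
    induction N with
    | zero => simp
    | succ N ih =>
      rw [Finset.sum_Ico_succ_top (by omega)]
      have : (1:ℝ)/(((N+2 : ℕ):ℝ))^2 ≤ 1/((N:ℝ)+1) - 1/((N:ℝ)+2) := by
        push_cast
        rw [div_sub_div _ _ (by positivity) (by positivity), div_le_div_iff₀ (by positivity) (by positivity)]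
        nlinarith
      have e : ((N+1 : ℕ):ℝ) + 1 = (N:ℝ) + 2 := by push_cast; ring
      rw [e]
      have e2 : N + 1 + 2 = (N + 2) + 1 := by ring
      linarith
  have h3 := h2 N
  have : (0:ℝ) ≤ 1/((N:ℝ)+1) := by positivity
  linarith

lemma markov (P : Finset ℕ) (hP : ∀ p ∈ P, p.Prime) (R : ℕ) (hR : (∏ p ∈ P, p) ∣ R) (t : ℝ) (ht : 0 < t)
    (B : Finset (ℕ × ℕ)) (hB : B ⊆ (Ioc 0 R) ×ˢ (Ioc 0 R)) (hBt : ∀ x ∈ B, t ≤ (g P x : ℝ)) :
    (B.card : ℝ) * t ≤ (R:ℝ)^2 := by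
  have hdvd : ∀ p ∈ P, p ∣ R := fun p hp => (Finset.dvd_prod_of_mem _ hp).trans hR
  calc (B.card : ℝ) * t = ∑ x ∈ B, t := by rw [Finset.sum_const, nsmul_eq_mul]
    _ ≤ ∑ x ∈ B, (g P x : ℝ) := Finset.sum_le_sum hBt
    _ ≤ ∑ x ∈ (Ioc 0 R) ×ˢ (Ioc 0 R), (g P x : ℝ) :=
        Finset.sum_le_sum_of_subset_of_nonneg hB fun _ _ _ => by positivity
    _ = ∑ x ∈ (Ioc 0 R) ×ˢ (Ioc 0 R), ∑ p ∈ P, (if p ∣ x.1 then (1:ℝ) else 0) * (if p ∣ x.2 then (1:ℝ) else 0) := by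
        refine Finset.sum_congr rfl fun x _ => ?_
        unfold g
        rw [Finset.card_filter]
        push_cast
        refine Finset.sum_congr rfl fun p _ => ?_
        by_cases a : p ∣ x.1 <;> by_cases b : p ∣ x.2 <;> simp [a, b]
    _ = ∑ p ∈ P, ((R:ℝ)/p) * ((R:ℝ)/p) := by
        rw [Finset.sum_comm]
        refine Finset.sum_congr rfl fun p hp => ?_
        rw [Finset.sum_product]
        simp only
        rw [← sum_ind R p (hdvd p hp) (hP p hp).pos, Finset.sum_mul_sum]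
    _ = (R:ℝ)^2 * ∑ p ∈ P, (1:ℝ)/(p:ℝ)^2 := by
        rw [Finset.mul_sum]
        refine Finset.sum_congr rfl fun p _ => ?_
        ring
    _ ≤ (R:ℝ)^2 * 1 := mul_le_mul_of_nonneg_left (S2 P hP) (by positivity)
    _ = _ := mul_one _

lemma om_mul (P : Finset ℕ) (hP : ∀ p ∈ P, p.Prime) (a b : ℕ) :
    om P (a*b) + g P (a,b) = om P a + om P b := by
  unfold om g
  have h1 : P.filter (fun p => p ∣ a * b) = P.filter (fun p => p ∣ a) ∪ P.filter (fun p => p ∣ b) := by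
    rw [← Finset.filter_or]
    refine Finset.filter_congr fun p hp => ?_
    exact (hP p hp).dvd_mul
  have h2 : P.filter (fun p => p ∣ a ∧ p ∣ b) = P.filter (fun p => p ∣ a) ∩ P.filter (fun p => p ∣ b) := by
    rw [Finset.filter_and]
  rw [h1]
  simp only
  rw [h2]
  exact Finset.card_union_add_card_inter _ _

/-- the multiplication table bound -/
theorem mt_bound (P : Finset ℕ) (hP : ∀ p ∈ P, p.Prime) (hS : 0 < S P) (R : ℕ) (hR : (∏ p ∈ P, p) ∣ R) :
    ((MT R).card : ℝ) ≤ 82 * (R:ℝ)^2 / S P := by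
  classical
  set s := S P with hs
  -- first bad set
  set B1 := (Ioc 0 (R^2)).filter (fun n => s/2 ≤ |(om P n : ℝ) - s|) with hB1
  have c1 : (B1.card : ℝ) * (s/2)^2 ≤ ((R^2 : ℕ):ℝ) * s :=
    cheb P hP (R^2) (hR.trans (dvd_pow_self R (by norm_num))) (s/2) (by positivity) B1 (Finset.filter_subset _ _)
      (fun n hn => (Finset.mem_filter.mp hn).2)
  set B2 := (Ioc 0 R).filter (fun n => s/6 ≤ |(om P n : ℝ) - s|) with hB2
  have c2 : (B2.card : ℝ) * (s/6)^2 ≤ (R:ℝ) * s :=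
    cheb P hP R hR (s/6) (by positivity) B2 (Finset.filter_subset _ _)
      (fun n hn => (Finset.mem_filter.mp hn).2)
  set B3 := ((Ioc 0 R) ×ˢ (Ioc 0 R)).filter (fun x => s/6 ≤ (g P x : ℝ)) with hB3
  have c3 : (B3.card : ℝ) * (s/6) ≤ (R:ℝ)^2 :=
    markov P hP R hR (s/6) (by positivity) B3 (Finset.filter_subset _ _)
      (fun n hn => (Finset.mem_filter.mp hn).2)
  have hsub : MT R ⊆ B1 ∪ ((B2 ×ˢ (Ioc 0 R)) ∪ ((Ioc 0 R) ×ˢ B2) ∪ B3).image (fun x => x.1 * x.2) := by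
    intro n hn
    rw [MT, Finset.mem_image] at hn
    obtain ⟨⟨a, b⟩, hab, rfl⟩ := hn
    rw [Finset.mem_product] at hab
    obtain ⟨ha, hb⟩ := hab
    simp only at ha hb ⊢
    rw [Finset.mem_union]
    by_cases h2a : a ∈ B2
    · right
      rw [Finset.mem_image]
      exact ⟨(a,b), by simp only [Finset.mem_union, Finset.mem_product]; exact Or.inl (Or.inl ⟨h2a, hb⟩), rfl⟩
    by_cases h2b : b ∈ B2
    · right
      rw [Finset.mem_image]
      exact ⟨(a,b), by simp only [Finset.mem_union, Finset.mem_product]; exact Or.inl (Or.inr ⟨ha, h2b⟩), rfl⟩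
    by_cases h3 : (a,b) ∈ B3
    · right
      rw [Finset.mem_image]
      exact ⟨(a,b), by simp only [Finset.mem_union]; exact Or.inr h3, rfl⟩
    left
    rw [hB1, Finset.mem_filter]
    constructor
    · rw [Finset.mem_Ioc] at ha hb ⊢
      exact ⟨Nat.mul_pos ha.1 hb.1, by rw [sq]; exact Nat.mul_le_mul ha.2 hb.2⟩
    · rw [hB2, Finset.mem_filter, not_and] at h2a h2b
      have ha' := h2a ha
      have hb' := h2b hb
      rw [hB3, Finset.mem_filter, not_and] at h3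
      have h3' := h3 (Finset.mem_product.mpr ⟨ha, hb⟩)
      push Not at ha' hb' h3'
      have e := om_mul P hP a b
      have er : (om P (a*b) : ℝ) + g P (a,b) = om P a + om P b := by exact_mod_cast e
      rw [abs_lt] at ha' hb'
      rw [le_abs]
      left
      linarith
  have hcard : ((MT R).card : ℝ) ≤ B1.card + 2 * (R * B2.card) + B3.card := by
    have h4 : (MT R).card ≤ B1.card + ((B2.card * R + R * B2.card) + B3.card) := by
      refine (Finset.card_le_card hsub).trans ((Finset.card_union_le _ _).trans ?_)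
      refine Nat.add_le_add_left (Finset.card_image_le.trans ((Finset.card_union_le _ _).trans ?_)) _
      refine Nat.add_le_add_right ((Finset.card_union_le _ _).trans ?_) _
      rw [Finset.card_product, Finset.card_product, Nat.card_Ioc, Nat.sub_zero]
    have h5 : ((MT R).card : ℝ) ≤ B1.card + ((B2.card * R + R * B2.card) + B3.card) := by exact_mod_cast h4
    linarith
  have hRn : (0:ℝ) ≤ R := by positivity
  have d1 : (B1.card : ℝ) ≤ 4 * (R:ℝ)^2 / s := by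
    rw [le_div_iff₀ hS]
    push_cast at c1
    have : (B1.card : ℝ) * s * s ≤ 4 * (R:ℝ)^2 * s := by nlinarith
    exact le_of_mul_le_mul_right this hS
  have d2 : (B2.card : ℝ) ≤ 36 * (R:ℝ) / s := by
    rw [le_div_iff₀ hS]
    have : (B2.card : ℝ) * s * s ≤ 36 * (R:ℝ) * s := by nlinarith
    exact le_of_mul_le_mul_right this hS
  have d3 : (B3.card : ℝ) ≤ 6 * (R:ℝ)^2 / s := by
    rw [le_div_iff₀ hS]; linarith
  calc ((MT R).card : ℝ) ≤ B1.card + 2 * (R * B2.card) + B3.card := hcard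
    _ ≤ 4 * (R:ℝ)^2 / s + 2 * (R * (36 * (R:ℝ) / s)) + 6 * (R:ℝ)^2 / s := by gcongr
    _ = 82 * (R:ℝ)^2 / s := by ring

/-- sets of primes with large reciprocal sum -/
lemma exists_P (t : ℝ) : ∃ P : Finset ℕ, (∀ p ∈ P, p.Prime) ∧ t < S P := by
  have h := Nat.Primes.not_summable_one_div
  by_contra hcon
  push Not at hcon
  apply h
  apply summable_of_sum_le (c := t)
  · intro p; positivity
  · intro u
    have := hcon (u.map ⟨fun p : Nat.Primes => (p:ℕ), Subtype.val_injective⟩) (by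
      intro p hp
      rw [Finset.mem_map] at hp
      obtain ⟨q, _, rfl⟩ := hp
      exact q.2)
    rw [S, Finset.sum_map] at this
    exact this

/-- for every `ε` and every bound there is a larger `R` with a sparse table -/
theorem exists_R (ε : ℝ) (hε : 0 < ε) (N : ℕ) : ∃ R : ℕ, N < R ∧ ((MT R).card : ℝ) ≤ ε * (R:ℝ)^2 := by
  obtain ⟨P, hP, hS⟩ := exists_P (82/ε)
  have hS0 : 0 < S P := lt_trans (by positivity) hS
  set W := ∏ p ∈ P, p with hW
  have hW0 : 0 < W := Finset.prod_pos fun p hp => (hP p hp).pos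
  refine ⟨W * (N+1), ?_, ?_⟩
  · calc N < N + 1 := Nat.lt_succ_self _
      _ ≤ W * (N+1) := Nat.le_mul_of_pos_left _ hW0
  · refine (mt_bound P hP hS0 (W*(N+1)) (Dvd.intro _ rfl)).trans ?_
    rw [div_le_iff₀ hS0]
    have h1 : 82 ≤ ε * S P := by
      rw [div_lt_iff₀ hε] at hS; linarith
    have h2 : (0:ℝ) ≤ (((W*(N+1) : ℕ)):ℝ)^2 := by positivity
    nlinarith

end Pool.H3.TwoClass
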