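import Mathlib
import Pool.Agent.H3.TwoClass.Table

set_option autoImplicit false

namespace Pool.H3.TwoClass

open Finset Filter

lemma step (f : ℕ → ℝ) (hf : Tendsto f atTop atTop) (r j : ℕ) :
    ∃ R : ℕ, r^2 < R ∧ r < R ∧ ∃ n0 : ℕ, (∀ n ≥ n0, ((r^2 : ℕ) : ℝ) < f n) ∧
      (n0 : ℝ) + ((MT R).card : ℝ) ≤ 1/((j:ℝ)+1) * ((R^2 : ℕ) : ℝ) := by
  obtain ⟨n0, hn0⟩ := Filter.eventually_atTop.mp (hf.eventually_gt_atTop (((r^2 : ℕ) : ℝ)))
  obtain ⟨R, hR, hRt⟩ := exists_R (1/(2*((j:ℝ)+1))) (by positivity) (r^2 + r + 2 * n0 * (j+1))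
  refine ⟨R, by omega, by omega, n0, hn0, ?_⟩
  have h1 : (2 * (n0:ℝ) * ((j:ℝ)+1)) ≤ (R:ℝ)^2 := by
    have h2 : 2 * n0 * (j+1) ≤ R^2 := by
      have : 2 * n0 * (j+1) ≤ R := by omega
      exact this.trans (Nat.le_self_pow (by norm_num) R)
    exact_mod_cast h2
  have hj : (0:ℝ) < (j:ℝ) + 1 := by positivity
  have h3 : (n0:ℝ) ≤ 1/(2*((j:ℝ)+1)) * (R:ℝ)^2 := by
    rw [one_div, ← div_eq_inv_mul, le_div_iff₀ (by positivity)]
    linarith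
  have e : 1/((j:ℝ)+1) * ((R^2 : ℕ) : ℝ) = 1/(2*((j:ℝ)+1)) * (R:ℝ)^2 + 1/(2*((j:ℝ)+1)) * (R:ℝ)^2 := by
    push_cast; field_simp; norm_num
  rw [e]; linarith

/-- the sparse sequence of scales -/
theorem exists_seq (f : ℕ → ℝ) (hf : Tendsto f atTop atTop) :
    ∃ R : ℕ → ℕ, (∀ j, 0 < R j) ∧ (∀ j, (R j)^2 < R (j+1)) ∧ ∀ j, ∃ n0 : ℕ,
      (∀ n ≥ n0, (((R j)^2 : ℕ) : ℝ) < f n) ∧
      (n0 : ℝ) + ((MT (R (j+1))).card : ℝ) ≤ 1/((j:ℝ)+1) * (((R (j+1))^2 : ℕ) : ℝ) := by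
  choose g hg1 hg2 hg3 using step f hf
  let R : ℕ → ℕ := fun j => Nat.rec 1 (fun j r => g r j) j
  have hR0 : R 0 = 1 := rfl
  have hRs : ∀ j, R (j+1) = g (R j) j := fun j => rfl
  refine ⟨R, ?_, ?_, ?_⟩
  · intro j
    induction j with
    | zero => rw [hR0]; norm_num
    | succ j ih => rw [hRs]; exact lt_trans ih (hg2 _ _)
  · intro j; rw [hRs]; exact hg1 _ _
  · intro j; rw [hRs]; exact hg3 _ _

/-- the first class -/
def A1 (R : ℕ → ℕ) : Set ℕ := {a | ∃ j, (R j)^2 < a ∧ a ≤ R (j+1)}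

lemma R_mono (R : ℕ → ℕ) (h0 : ∀ j, 0 < R j) (h : ∀ j, (R j)^2 < R (j+1)) : StrictMono R := by
  apply strictMono_nat_of_lt_succ
  intro j
  have := h j
  have h1 := h0 j
  nlinarith

lemma class1 (R : ℕ → ℕ) (h0 : ∀ j, 0 < R j) (h : ∀ j, (R j)^2 < R (j+1)) (j a : ℕ)
    (ha : (R j)^2 < a) (ha2 : a ≤ (R (j+1))^2) (hA : a ∈ A1 R) : a ≤ R (j+1) := by
  obtain ⟨i, hi1, hi2⟩ := hA
  have hm := R_mono R h0 h
  have h1 : i ≤ j := by
    by_contra hcon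
    push Not at hcon
    have : R (j+1) ≤ R i := hm.monotone hcon
    have : (R (j+1))^2 ≤ (R i)^2 := Nat.pow_le_pow_left this 2
    omega
  have : R (i+1) ≤ R (j+1) := hm.monotone (by omega)
  omega

lemma class2 (R : ℕ → ℕ) (j a : ℕ)
    (ha : (R j)^2 < a) (hA : a ∉ A1 R) : R (j+1) < a := by
  by_contra hcon
  push Not at hcon
  exact hA ⟨j, ha, hcon⟩

/-- main counting estimate -/
theorem main (f : ℕ → ℝ) (R : ℕ → ℕ) (h0 : ∀ j, 0 < R j) (h : ∀ j, (R j)^2 < R (j+1)) (j n0 : ℕ)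
    (hn0 : ∀ n ≥ n0, (((R j)^2 : ℕ) : ℝ) < f n) (D : Finset ℕ)
    (hD : ∀ n ∈ D, 0 < n ∧ n ≤ (R (j+1))^2 ∧ ∃ a b, n = a * b ∧
      ((a ∈ A1 R ∧ b ∈ A1 R) ∨ (a ∉ A1 R ∧ b ∉ A1 R)) ∧ f n < (a:ℝ) ∧ f n < (b:ℝ)) :
    D.card ≤ n0 + (MT (R (j+1))).card := by
  classical
  have hsub : D ⊆ range n0 ∪ MT (R (j+1)) := by
    intro n hn
    obtain ⟨hn1, hn2, a, b, hab, hcl, hfa, hfb⟩ := hD n hn
    rw [Finset.mem_union]
    rcases lt_or_ge n n0 with hlt | hge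
    · left; exact Finset.mem_range.mpr hlt
    · right
      have hf := hn0 n hge
      have ha : (R j)^2 < a := by exact_mod_cast hf.trans hfa
      have hb : (R j)^2 < b := by exact_mod_cast hf.trans hfb
      have ha0 : 0 < a := by omega
      have hb0 : 0 < b := by omega
      have han : a ≤ n := by rw [hab]; exact Nat.le_mul_of_pos_right _ hb0
      have hbn : b ≤ n := by rw [hab]; exact Nat.le_mul_of_pos_left _ ha0
      rw [MT, Finset.mem_image]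
      refine ⟨(a,b), ?_, hab.symm⟩
      rw [Finset.mem_product, Finset.mem_Ioc, Finset.mem_Ioc]
      rcases hcl with ⟨hA, hB⟩ | ⟨hA, hB⟩
      · exact ⟨⟨ha0, class1 R h0 h j a ha (han.trans hn2) hA⟩, ⟨hb0, class1 R h0 h j b hb (hbn.trans hn2) hB⟩⟩
      · exfalso
        have h1 := class2 R j a ha hA
        have h2 := class2 R j b hb hB
        have h3 : (R (j+1))^2 < a * b := by
          rw [sq]; exact Nat.mul_lt_mul'' h1 h2
        omega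
  refine (Finset.card_le_card hsub).trans ((Finset.card_union_le _ _).trans ?_)
  rw [Finset.card_range]

end Pool.H3.TwoClass
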